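import Pool.Agent.Helper32.B4.St2

/-! # B4 module NU -/

set_option autoImplicit false

open Metric Set Filter Topology MeasureTheory
open scoped ComplexConjugate Interval

namespace Pool.Agent.Helper75.B4

open Pool.Agent.Helper32.B4

noncomputable def hp (u : ℝ) : ℝ :=
  10000 - 29589 * u + 83712 * u ^ 2 - 198938 * u ^ 3 + 360130 * u ^ 4 - 452894 * u ^ 5 +
    365324 * u ^ 6 - 168252 * u ^ 7 + 33496 * u ^ 8

noncomputable def Hh (u : ℝ) : ℝ :=
  10000 * u - 29589/2 * u ^ 2 + 27904 * u ^ 3 - 99469/2 * u ^ 4 + 72026 * u ^ 5 - 226447/3 * u ^ 6 + 365324/7 * u ^ 7 - 42063/2 * u ^ 8 + 33496/9 * u ^ 9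

noncomputable def Hv (u : ℝ) : ℝ :=
  5000 * u ^ 2 - 9863 * u ^ 3 + 20928 * u ^ 4 - 198938/5 * u ^ 5 + 180065/3 * u ^ 6 - 452894/7 * u ^ 7 + 91331/2 * u ^ 8 - 56084/3 * u ^ 9 + 16748/5 * u ^ 10

/-- the final polynomial -/
noncomputable def rp (u : ℝ) : ℝ :=
  184/21 + 2392769/1050 * u - 1367256/25 * u ^ 2 + 12920919/25 * u ^ 3 - 12738553/5 * u ^ 4 + 183650837/25 * u ^ 5 - 977521486/75 * u ^ 6 + 7548480346/525 * u ^ 7 - 1675631386/175 * u ^ 8 + 10515850/3 * u ^ 9 - 24184112/45 * u ^ 10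

theorem pos_h01 (x y : ℝ) (hx : 0 ≤ x) (hy : 0 ≤ y) : 0 ≤
      10000 * x ^ 0 * y ^ 8 +
      50411 * x ^ 1 * y ^ 7 +
      156589 * x ^ 2 * y ^ 6 +
      241965 * x ^ 3 * y ^ 5 +
      285505 * x ^ 4 * y ^ 4 +
      196871 * x ^ 5 * y ^ 3 +
      92353 * x ^ 6 * y ^ 2 +
      24693 * x ^ 7 * y ^ 1 +
      2989 * x ^ 8 * y ^ 0 := by
  positivity

theorem pos_r0 (x y : ℝ) (hx : 0 ≤ x) (hy : 0 ≤ y) : 0 ≤
      197568495616/21 * x ^ 0 * y ^ 10 +
      9998482538496/25 * x ^ 1 * y ^ 9 +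
      395244969394176/175 * x ^ 2 * y ^ 8 +
      1029590568927232/175 * x ^ 3 * y ^ 7 +
      222394424492032/25 * x ^ 4 * y ^ 6 +
      213034214785024/25 * x ^ 5 * y ^ 5 +
      401519671549952/75 * x ^ 6 * y ^ 4 +
      1164416216937472/525 * x ^ 7 * y ^ 3 +
      104086256397696/175 * x ^ 8 * y ^ 2 +
      51095588847536/525 * x ^ 9 * y ^ 1 +
      1764158256128/225 * x ^ 10 * y ^ 0 := by
  positivity

theorem pos_r1 (x y : ℝ) (hx : 0 ≤ x) (hy : 0 ≤ y) : 0 ≤
      1764158256128/225 * x ^ 0 * y ^ 10 +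
      93695389315312/1575 * x ^ 1 * y ^ 9 +
      1779795166816/7 * x ^ 2 * y ^ 8 +
      141891263277824/175 * x ^ 3 * y ^ 7 +
      27901652452864/15 * x ^ 4 * y ^ 6 +
      72409281244672/25 * x ^ 5 * y ^ 5 +
      8978453103616/3 * x ^ 6 * y ^ 4 +
      211792497741824/105 * x ^ 7 * y ^ 3 +
      149193034620928/175 * x ^ 8 * y ^ 2 +
      323431185608704/1575 * x ^ 9 * y ^ 1 +
      6783512731648/315 * x ^ 10 * y ^ 0 := by
  positivity

theorem pos_r2 (x y : ℝ) (hx : 0 ≤ x) (hy : 0 ≤ y) : 0 ≤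
      6624524152/315 * x ^ 0 * y ^ 10 +
      361977088408/1575 * x ^ 1 * y ^ 9 +
      178198622512/175 * x ^ 2 * y ^ 8 +
      247212250112/105 * x ^ 3 * y ^ 7 +
      234143496448/75 * x ^ 4 * y ^ 6 +
      63321203968/25 * x ^ 5 * y ^ 5 +
      103654229504/75 * x ^ 6 * y ^ 4 +
      15263248384/25 * x ^ 7 * y ^ 3 +
      43034441728/175 * x ^ 8 * y ^ 2 +
      112788404224/1575 * x ^ 9 * y ^ 1 +
      14950854656/1575 * x ^ 10 * y ^ 0 := by
  positivity

theorem pos_r3 (x y : ℝ) (hx : 0 ≤ x) (hy : 0 ≤ y) : 0 ≤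
      14950854656/1575 * x ^ 0 * y ^ 10 +
      20692076544/175 * x ^ 1 * y ^ 9 +
      4658989056/7 * x ^ 2 * y ^ 8 +
      1115555074048/525 * x ^ 3 * y ^ 7 +
      311158810112/75 * x ^ 4 * y ^ 6 +
      127867581184/25 * x ^ 5 * y ^ 5 +
      20155860224/5 * x ^ 6 * y ^ 4 +
      355937821696/175 * x ^ 7 * y ^ 3 +
      16205199696/25 * x ^ 8 * y ^ 2 +
      21529817576/175 * x ^ 9 * y ^ 1 +
      5777293048/525 * x ^ 10 * y ^ 0 := by
  positivity

theorem pos_r4 (x y : ℝ) (hx : 0 ≤ x) (hy : 0 ≤ y) : 0 ≤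
      5777293048/525 * x ^ 0 * y ^ 10 +
      50956408232/525 * x ^ 1 * y ^ 9 +
      72537264384/175 * x ^ 2 * y ^ 8 +
      207484588672/175 * x ^ 3 * y ^ 7 +
      61390424064/25 * x ^ 4 * y ^ 6 +
      88052704256/25 * x ^ 5 * y ^ 5 +
      241215832064/75 * x ^ 6 * y ^ 4 +
      294626574336/175 * x ^ 7 * y ^ 3 +
      15370616832/35 * x ^ 8 * y ^ 2 +
      11654004736/175 * x ^ 9 * y ^ 1 +
      4036493312/225 * x ^ 10 * y ^ 0 := by
  positivity

theorem app_h01 (u : ℝ) (h1 : 0 ≤ u) (h2 : u ≤ 1) : 0 ≤ hp u := by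
  have h := pos_h01 (u - 0) (1 - u) (by linarith) (by linarith)
  have e : hp u =
      10000 * (u - 0) ^ 0 * (1 - u) ^ 8 +
      50411 * (u - 0) ^ 1 * (1 - u) ^ 7 +
      156589 * (u - 0) ^ 2 * (1 - u) ^ 6 +
      241965 * (u - 0) ^ 3 * (1 - u) ^ 5 +
      285505 * (u - 0) ^ 4 * (1 - u) ^ 4 +
      196871 * (u - 0) ^ 5 * (1 - u) ^ 3 +
      92353 * (u - 0) ^ 6 * (1 - u) ^ 2 +
      24693 * (u - 0) ^ 7 * (1 - u) ^ 1 +
      2989 * (u - 0) ^ 8 * (1 - u) ^ 0 := by
    unfold hp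
    ring
  rw [e]
  exact h

theorem app_r0 (u : ℝ) (h1 : 0 ≤ u) (h2 : u ≤ 1/8) : 0 ≤ rp u := by
  have h := pos_r0 (u - 0) (1/8 - u) (by linarith) (by linarith)
  have e : rp u =
      197568495616/21 * (u - 0) ^ 0 * (1/8 - u) ^ 10 +
      9998482538496/25 * (u - 0) ^ 1 * (1/8 - u) ^ 9 +
      395244969394176/175 * (u - 0) ^ 2 * (1/8 - u) ^ 8 +
      1029590568927232/175 * (u - 0) ^ 3 * (1/8 - u) ^ 7 +
      222394424492032/25 * (u - 0) ^ 4 * (1/8 - u) ^ 6 +
      213034214785024/25 * (u - 0) ^ 5 * (1/8 - u) ^ 5 +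
      401519671549952/75 * (u - 0) ^ 6 * (1/8 - u) ^ 4 +
      1164416216937472/525 * (u - 0) ^ 7 * (1/8 - u) ^ 3 +
      104086256397696/175 * (u - 0) ^ 8 * (1/8 - u) ^ 2 +
      51095588847536/525 * (u - 0) ^ 9 * (1/8 - u) ^ 1 +
      1764158256128/225 * (u - 0) ^ 10 * (1/8 - u) ^ 0 := by
    unfold rp
    ring
  rw [e]
  exact h

theorem app_r1 (u : ℝ) (h1 : 1/8 ≤ u) (h2 : u ≤ 1/4) : 0 ≤ rp u := by
  have h := pos_r1 (u - 1/8) (1/4 - u) (by linarith) (by linarith)
  have e : rp u =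
      1764158256128/225 * (u - 1/8) ^ 0 * (1/4 - u) ^ 10 +
      93695389315312/1575 * (u - 1/8) ^ 1 * (1/4 - u) ^ 9 +
      1779795166816/7 * (u - 1/8) ^ 2 * (1/4 - u) ^ 8 +
      141891263277824/175 * (u - 1/8) ^ 3 * (1/4 - u) ^ 7 +
      27901652452864/15 * (u - 1/8) ^ 4 * (1/4 - u) ^ 6 +
      72409281244672/25 * (u - 1/8) ^ 5 * (1/4 - u) ^ 5 +
      8978453103616/3 * (u - 1/8) ^ 6 * (1/4 - u) ^ 4 +
      211792497741824/105 * (u - 1/8) ^ 7 * (1/4 - u) ^ 3 +
      149193034620928/175 * (u - 1/8) ^ 8 * (1/4 - u) ^ 2 +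
      323431185608704/1575 * (u - 1/8) ^ 9 * (1/4 - u) ^ 1 +
      6783512731648/315 * (u - 1/8) ^ 10 * (1/4 - u) ^ 0 := by
    unfold rp
    ring
  rw [e]
  exact h

theorem app_r2 (u : ℝ) (h1 : 1/4 ≤ u) (h2 : u ≤ 1/2) : 0 ≤ rp u := by
  have h := pos_r2 (u - 1/4) (1/2 - u) (by linarith) (by linarith)
  have e : rp u =
      6624524152/315 * (u - 1/4) ^ 0 * (1/2 - u) ^ 10 +
      361977088408/1575 * (u - 1/4) ^ 1 * (1/2 - u) ^ 9 +
      178198622512/175 * (u - 1/4) ^ 2 * (1/2 - u) ^ 8 +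
      247212250112/105 * (u - 1/4) ^ 3 * (1/2 - u) ^ 7 +
      234143496448/75 * (u - 1/4) ^ 4 * (1/2 - u) ^ 6 +
      63321203968/25 * (u - 1/4) ^ 5 * (1/2 - u) ^ 5 +
      103654229504/75 * (u - 1/4) ^ 6 * (1/2 - u) ^ 4 +
      15263248384/25 * (u - 1/4) ^ 7 * (1/2 - u) ^ 3 +
      43034441728/175 * (u - 1/4) ^ 8 * (1/2 - u) ^ 2 +
      112788404224/1575 * (u - 1/4) ^ 9 * (1/2 - u) ^ 1 +
      14950854656/1575 * (u - 1/4) ^ 10 * (1/2 - u) ^ 0 := by
    unfold rp
    ring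
  rw [e]
  exact h

theorem app_r3 (u : ℝ) (h1 : 1/2 ≤ u) (h2 : u ≤ 3/4) : 0 ≤ rp u := by
  have h := pos_r3 (u - 1/2) (3/4 - u) (by linarith) (by linarith)
  have e : rp u =
      14950854656/1575 * (u - 1/2) ^ 0 * (3/4 - u) ^ 10 +
      20692076544/175 * (u - 1/2) ^ 1 * (3/4 - u) ^ 9 +
      4658989056/7 * (u - 1/2) ^ 2 * (3/4 - u) ^ 8 +
      1115555074048/525 * (u - 1/2) ^ 3 * (3/4 - u) ^ 7 +
      311158810112/75 * (u - 1/2) ^ 4 * (3/4 - u) ^ 6 +
      127867581184/25 * (u - 1/2) ^ 5 * (3/4 - u) ^ 5 +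
      20155860224/5 * (u - 1/2) ^ 6 * (3/4 - u) ^ 4 +
      355937821696/175 * (u - 1/2) ^ 7 * (3/4 - u) ^ 3 +
      16205199696/25 * (u - 1/2) ^ 8 * (3/4 - u) ^ 2 +
      21529817576/175 * (u - 1/2) ^ 9 * (3/4 - u) ^ 1 +
      5777293048/525 * (u - 1/2) ^ 10 * (3/4 - u) ^ 0 := by
    unfold rp
    ring
  rw [e]
  exact h

theorem app_r4 (u : ℝ) (h1 : 3/4 ≤ u) (h2 : u ≤ 1) : 0 ≤ rp u := by
  have h := pos_r4 (u - 3/4) (1 - u) (by linarith) (by linarith)
  have e : rp u =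
      5777293048/525 * (u - 3/4) ^ 0 * (1 - u) ^ 10 +
      50956408232/525 * (u - 3/4) ^ 1 * (1 - u) ^ 9 +
      72537264384/175 * (u - 3/4) ^ 2 * (1 - u) ^ 8 +
      207484588672/175 * (u - 3/4) ^ 3 * (1 - u) ^ 7 +
      61390424064/25 * (u - 3/4) ^ 4 * (1 - u) ^ 6 +
      88052704256/25 * (u - 3/4) ^ 5 * (1 - u) ^ 5 +
      241215832064/75 * (u - 3/4) ^ 6 * (1 - u) ^ 4 +
      294626574336/175 * (u - 3/4) ^ 7 * (1 - u) ^ 3 +
      15370616832/35 * (u - 3/4) ^ 8 * (1 - u) ^ 2 +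
      11654004736/175 * (u - 3/4) ^ 9 * (1 - u) ^ 1 +
      4036493312/225 * (u - 3/4) ^ 10 * (1 - u) ^ 0 := by
    unfold rp
    ring
  rw [e]
  exact h

theorem rp_nonneg (u : ℝ) (h0 : 0 ≤ u) (h1 : u ≤ 1) : 0 ≤ rp u := by
  rcases le_total u (1/8) with h | h
  · exact app_r0 u h0 h
  rcases le_total u (1/4) with h' | h'
  · exact app_r1 u h h'
  rcases le_total u (1/2) with h2 | h2
  · exact app_r2 u h' h2
  rcases le_total u (3/4) with h3 | h3
  · exact app_r3 u h2 h3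
  · exact app_r4 u h3 h1

theorem hp_pos (u : ℝ) : 0 < hp u := by
  rcases le_total u 0 with h | h
  · have e : hp u = 10000 + 29589 * (-u) + 83712 * (-u) ^ 2 + 198938 * (-u) ^ 3 +
        360130 * (-u) ^ 4 + 452894 * (-u) ^ 5 + 365324 * (-u) ^ 6 + 168252 * (-u) ^ 7 +
        33496 * (-u) ^ 8 := by
      unfold hp
      ring
    have hx : 0 ≤ -u := by linarith
    generalize -u = x at e hx
    rw [e]
    positivity
  rcases le_total u 1 with h1 | h1
  · have h2 := app_h01 u h h1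
    have key : ∀ x y : ℝ, 0 ≤ x → 0 ≤ y → x + y = 1 → 0 < 10000 * y ^ 8 + 50411 * x * y ^ 7 +
        156589 * x ^ 2 * y ^ 6 + 241965 * x ^ 3 * y ^ 5 + 285505 * x ^ 4 * y ^ 4 +
        196871 * x ^ 5 * y ^ 3 + 92353 * x ^ 6 * y ^ 2 + 24693 * x ^ 7 * y + 2989 * x ^ 8 := by
      intro x y hx hy hxy
      rcases hx.eq_or_lt with h3 | h3
      · rw [← h3] at hxy ⊢
        have : y = 1 := by linarith
        rw [this]
        norm_num
      · positivity
    have e : hp u = 10000 * (1 - u) ^ 8 + 50411 * u * (1 - u) ^ 7 +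
        156589 * u ^ 2 * (1 - u) ^ 6 + 241965 * u ^ 3 * (1 - u) ^ 5 + 285505 * u ^ 4 * (1 - u) ^ 4 +
        196871 * u ^ 5 * (1 - u) ^ 3 + 92353 * u ^ 6 * (1 - u) ^ 2 + 24693 * u ^ 7 * (1 - u) +
        2989 * u ^ 8 := by
      unfold hp
      ring
    rw [e]
    exact key u (1 - u) h (by linarith) (by ring)
  · have e : hp u = (2989 - 781 * (u - 1) + 3194 * (u - 1) ^ 2) + 6078 * (u - 1) ^ 3 +
        31420 * (u - 1) ^ 4 + 81534 * (u - 1) ^ 5 + 125448 * (u - 1) ^ 6 + 99716 * (u - 1) ^ 7 +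
        33496 * (u - 1) ^ 8 := by
      unfold hp
      ring
    have hx : 0 ≤ u - 1 := by linarith
    generalize u - 1 = x at e hx
    rw [e]
    have h3 : 0 < 2989 - 781 * x + 3194 * x ^ 2 := by nlinarith [sq_nonneg (x - 1/8)]
    positivity

theorem hp_cont : Continuous hp := by
  unfold hp
  fun_prop

theorem deriv_Hh (u : ℝ) : HasDerivAt Hh (hp u) u := by
  have hid := hasDerivAt_id' u
  have p := fun n : ℕ => hasDerivAt_pow n u
  have h := ((((((((hid.const_mul 10000).sub ((p 2).const_mul (29589/2))).add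
      ((p 3).const_mul 27904)).sub ((p 4).const_mul (99469/2))).add ((p 5).const_mul 72026)).sub
      ((p 6).const_mul (226447/3))).add ((p 7).const_mul (365324/7))).sub
      ((p 8).const_mul (42063/2))).add ((p 9).const_mul (33496/9))
  have h' : HasDerivAt Hh _ u := h
  refine h'.congr_deriv ?_
  unfold hp
  norm_num
  ring

theorem deriv_Hv (u : ℝ) : HasDerivAt Hv (u * hp u) u := by
  have p := fun n : ℕ => hasDerivAt_pow n u
  have h := (((((((((p 2).const_mul 5000).sub ((p 3).const_mul 9863)).add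
      ((p 4).const_mul 20928)).sub ((p 5).const_mul (198938/5))).add
      ((p 6).const_mul (180065/3))).sub ((p 7).const_mul (452894/7))).add
      ((p 8).const_mul (91331/2))).sub ((p 9).const_mul (56084/3))).add
      ((p 10).const_mul (16748/5))
  have h' : HasDerivAt Hv _ u := h
  refine h'.congr_deriv ?_
  unfold hp
  norm_num
  ring

theorem deriv_tail (f : ℝ → ℝ) (hf : Continuous f) (u : ℝ) :
    HasDerivAt (fun u => ∫ v in u..1, f v) (-f u) u := by
  have h2 : (fun u => ∫ v in u..1, f v) = fun u => -∫ v in (1:ℝ)..u, f v := by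
    funext u
    rw [intervalIntegral.integral_symm]
  rw [h2]
  exact (hf.integral_hasStrictDerivAt 1 u).hasDerivAt.neg

theorem cont_tail (f : ℝ → ℝ) (hf : Continuous f) : Continuous (fun u : ℝ => ∫ v in u..1, f v) :=
  continuous_iff_continuousAt.2 fun u => (deriv_tail f hf u).continuousAt

theorem split_tail (f : ℝ → ℝ) (hf : Continuous f) (u : ℝ) :
    ∫ v in u..1, (6 - 3 * u - 2 * v) * f v =
      (6 - 3 * u) * (∫ v in u..1, f v) - 2 * ∫ v in u..1, v * f v := by
  rw [← intervalIntegral.integral_const_mul, ← intervalIntegral.integral_const_mul,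
    ← intervalIntegral.integral_sub]
  · refine intervalIntegral.integral_congr fun v _ => ?_
    ring
  · exact (continuous_const.mul hf).intervalIntegrable _ _
  · exact (continuous_const.mul (continuous_id.mul hf)).intervalIntegrable _ _

theorem int_hp (u : ℝ) : ∫ v in u..1, hp v = Hh 1 - Hh u :=
  intervalIntegral.integral_eq_sub_of_hasDerivAt (fun v _ => deriv_Hh v)
    (hp_cont.intervalIntegrable _ _)

theorem int_vhp (u : ℝ) : ∫ v in u..1, v * hp v = Hv 1 - Hv u :=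
  intervalIntegral.integral_eq_sub_of_hasDerivAt (fun v _ => deriv_Hv v)
    ((continuous_id.mul hp_cont).intervalIntegrable _ _)

/-- the part above -/
noncomputable def PP (u : ℝ) : ℝ := (6 - 3 * u) * (Hh 1 - Hh u) - 2 * (Hv 1 - Hv u)

/-- the part below -/
noncomputable def RR (u : ℝ) : ℝ := 6 * Hh u - 3 * Hv u - 2 * u * Hh u

theorem PP_cont : Continuous PP := by
  unfold PP Hh Hv
  fun_prop

theorem RR_cont : Continuous RR := by
  unfold RR Hh Hv
  fun_prop

theorem rp_eq (u : ℝ) :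
    rp u = (19.98 - (10 - 24 * u + 16 * u ^ 2)) * hp u - (4 * PP u + 4 * RR u) := by
  unfold rp hp PP RR Hh Hv
  ring

theorem inner_le (s g : ℝ → ℝ) (hs : Continuous s) (hgc : Continuous g)
    (hg : ∀ u, g u * hp u = s u ^ 2) (u : ℝ) (h1 : u ≤ 1) :
    s u * ∫ v in u..1, (6 - 3 * u - 2 * v) * s v ≤
      (1/2) * (g u * PP u +
        hp u * ((6 - 3 * u) * (∫ v in u..1, g v) - 2 * ∫ v in u..1, v * g v)) := by
  have e1 : PP u = ∫ v in u..1, (6 - 3 * u - 2 * v) * hp v := by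
    rw [split_tail hp hp_cont, int_hp, int_vhp]
    rfl
  rw [e1, ← split_tail g hgc, ← intervalIntegral.integral_const_mul,
    ← intervalIntegral.integral_const_mul, ← intervalIntegral.integral_const_mul,
    ← intervalIntegral.integral_add, ← intervalIntegral.integral_const_mul]
  · refine intervalIntegral.integral_mono_on h1 ?_ ?_ ?_
    · apply Continuous.intervalIntegrable
      fun_prop
    · have := hp_cont
      apply Continuous.intervalIntegrable
      fun_prop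
    · intro v hv
      have hk : 0 ≤ 6 - 3 * u - 2 * v := by linarith [hv.2]
      have hu := hp_pos u
      have hvp := hp_pos v
      have a1 := hg u
      have a2 := hg v
      have gu : g u = s u ^ 2 / hp u := by rw [← a1]; field_simp
      have gv : g v = s v ^ 2 / hp v := by rw [← a2]; field_simp
      have main : s u * s v ≤ (1/2) * (g u * hp v + hp u * g v) := by
        have : (1/2) * (g u * hp v + hp u * g v) - s u * s v =
            (1/2) * (s u * hp v - s v * hp u) ^ 2 / (hp u * hp v) := by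
          rw [gu, gv]
          field_simp
          ring
        have h3 : 0 ≤ (1/2) * (s u * hp v - s v * hp u) ^ 2 / (hp u * hp v) := by positivity
        linarith
      have := mul_le_mul_of_nonneg_left main hk
      calc s u * ((6 - 3 * u - 2 * v) * s v) = (6 - 3 * u - 2 * v) * (s u * s v) := by ring
        _ ≤ _ := this
        _ = _ := by ring
  · have := hp_cont
    apply Continuous.intervalIntegrable
    fun_prop
  · have := hp_cont
    apply Continuous.intervalIntegrable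
    fun_prop

theorem by_parts (g : ℝ → ℝ) (hgc : Continuous g) :
    ∫ u in (0:ℝ)..1, hp u * ((6 - 3 * u) * (∫ v in u..1, g v) - 2 * ∫ v in u..1, v * g v) =
      ∫ u in (0:ℝ)..1, g u * RR u := by
  have hvg : Continuous (fun v : ℝ => v * g v) := continuous_id.mul hgc
  have c1 := cont_tail g hgc
  have c2 := cont_tail _ hvg
  have hc := hp_cont
  have hr := RR_cont
  have hd : ∀ u : ℝ, HasDerivAt (fun u => (6 * Hh u - 3 * Hv u) * (∫ v in u..1, g v) -
      2 * Hh u * ∫ v in u..1, v * g v)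
      (hp u * ((6 - 3 * u) * (∫ v in u..1, g v) - 2 * ∫ v in u..1, v * g v) - g u * RR u) u := by
    intro u
    have d1 := deriv_tail g hgc u
    have d2 := deriv_tail _ hvg u
    have d3 := deriv_Hh u
    have d4 := deriv_Hv u
    have h5 := (((d3.const_mul 6).sub (d4.const_mul 3)).mul d1).sub ((d3.const_mul 2).mul d2)
    have h6 : HasDerivAt (fun u => (6 * Hh u - 3 * Hv u) * (∫ v in u..1, g v) -
      2 * Hh u * ∫ v in u..1, v * g v) _ u := h5
    refine h6.congr_deriv ?_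
    have h7 : ((fun y => 6 * Hh y) - fun y => 3 * Hv y) u = 6 * Hh u - 3 * Hv u := rfl
    rw [h7]
    unfold RR
    ring
  have h := intervalIntegral.integral_eq_sub_of_hasDerivAt (a := (0:ℝ)) (b := 1)
    (fun u _ => hd u) (by
      apply Continuous.intervalIntegrable
      fun_prop)
  rw [intervalIntegral.integral_sub] at h
  · have z1 : Hh 0 = 0 := by unfold Hh; norm_num
    have z2 : Hv 0 = 0 := by unfold Hv; norm_num
    rw [intervalIntegral.integral_same, intervalIntegral.integral_same, z1, z2] at h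
    linarith
  · apply Continuous.intervalIntegrable
    fun_prop
  · apply Continuous.intervalIntegrable
    fun_prop

theorem hNU : StNU := by
  intro s hs
  unfold Qf
  obtain ⟨g, hgdef⟩ : ∃ g : ℝ → ℝ, g = fun u => s u ^ 2 / hp u := ⟨_, rfl⟩
  have hgc : Continuous g := by
    rw [hgdef]
    exact (hs.pow 2).div hp_cont fun u => (hp_pos u).ne'
  have hg : ∀ u, g u * hp u = s u ^ 2 := by
    intro u
    rw [hgdef]
    exact div_mul_cancel₀ _ (hp_pos u).ne'
  have hvs : Continuous (fun v : ℝ => v * s v) := continuous_id.mul hs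
  have hvg : Continuous (fun v : ℝ => v * g v) := continuous_id.mul hgc
  have c1 := cont_tail g hgc
  have c2 := cont_tail _ hvg
  have c3 := cont_tail s hs
  have c4 := cont_tail _ hvs
  have hc := hp_cont
  have hr := RR_cont
  have hpc := PP_cont
  have cl : Continuous fun u : ℝ => s u * ∫ v in u..1, (6 - 3 * u - 2 * v) * s v := by
    have : (fun u : ℝ => s u * ∫ v in u..1, (6 - 3 * u - 2 * v) * s v) =
        fun u : ℝ => s u * ((6 - 3 * u) * (∫ v in u..1, s v) - 2 * ∫ v in u..1, v * s v) := by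
      funext u
      rw [split_tail s hs]
    rw [this]
    fun_prop
  have e1 : ∫ u in (0:ℝ)..1, s u * ∫ v in u..1, (6 - 3 * u - 2 * v) * s v ≤
      ∫ u in (0:ℝ)..1, (1/2) * (g u * PP u +
        hp u * ((6 - 3 * u) * (∫ v in u..1, g v) - 2 * ∫ v in u..1, v * g v)) := by
    refine intervalIntegral.integral_mono_on zero_le_one (cl.intervalIntegrable _ _) ?_ ?_
    · apply Continuous.intervalIntegrable
      fun_prop
    · intro u hu
      exact inner_le s g hs hgc hg u hu.2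
  rw [intervalIntegral.integral_const_mul, intervalIntegral.integral_add, by_parts g hgc] at e1
  rotate_left
  · apply Continuous.intervalIntegrable
    fun_prop
  · apply Continuous.intervalIntegrable
    fun_prop
  have e2 : (∫ u in (0:ℝ)..1, (10 - 24 * u + 16 * u ^ 2) * s u ^ 2) +
      (4 * (∫ u in (0:ℝ)..1, g u * PP u) + 4 * ∫ u in (0:ℝ)..1, g u * RR u) =
      ∫ u in (0:ℝ)..1, ((10 - 24 * u + 16 * u ^ 2) * s u ^ 2 +
        (4 * (g u * PP u) + 4 * (g u * RR u))) := by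
    rw [intervalIntegral.integral_add, intervalIntegral.integral_add,
      intervalIntegral.integral_const_mul, intervalIntegral.integral_const_mul]
    all_goals
      apply Continuous.intervalIntegrable
      fun_prop
  have e3 : ∫ u in (0:ℝ)..1, ((10 - 24 * u + 16 * u ^ 2) * s u ^ 2 +
        (4 * (g u * PP u) + 4 * (g u * RR u))) ≤ ∫ u in (0:ℝ)..1, 19.98 * s u ^ 2 := by
    refine intervalIntegral.integral_mono_on zero_le_one ?_ ?_ ?_
    · apply Continuous.intervalIntegrable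
      fun_prop
    · apply Continuous.intervalIntegrable
      fun_prop
    · intro u hu
      have h1 := rp_nonneg u hu.1 hu.2
      rw [rp_eq] at h1
      have h2 : 0 ≤ g u := by
        rw [hgdef]
        exact div_nonneg (sq_nonneg _) (hp_pos u).le
      have h3 := mul_nonneg h2 h1
      have h4 := hg u
      rw [← h4]
      nlinarith
  rw [intervalIntegral.integral_const_mul] at e3
  linarith

end Pool.Agent.Helper75.B4
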